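import Pool.Agent.Helper69.EK.Stm
import Pool.Graph.R_pool_sql_team_seeded_1e53cb71.Helper6K9.ES.Avg

set_option autoImplicit false

/-!
# Removal of the average along a long closed geodesic, all orders
-/

namespace Pool.Agent.Helper69.EK.AvgKL

open Set Filter Topology MeasureTheory Pool.Agent.Helper6K9.ES Pool.Agent.Helper6K9.ES.AvgL
open scoped ContDiff

variable {m : ℕ} {V : Type} [NormedAddCommGroup V] [NormedSpace ℝ V]

theorem perV_iter {F : E m → V} (h : PerV F) (n : ℕ) : PerV (iteratedFDeriv ℝ n F) := by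
  intro p k l
  have h1 : F = fun q => F (q + tr k l) := funext fun q => (h.add q k l).symm
  have h2 : iteratedFDeriv ℝ n F p = iteratedFDeriv ℝ n F (p + tr k l) := by
    conv_lhs => rw [h1]
    exact iteratedFDeriv_comp_add_right n (tr k l) p
  exact h2.symm

theorem avw_comp [CompleteSpace V] {V' : Type} [NormedAddCommGroup V'] [NormedSpace ℝ V']
    [CompleteSpace V'] (L : V →L[ℝ] V') (w : Q m) {F : E m → V} (hc : Continuous F) :
    avw w (fun p => L (F p)) = fun p => L (avw w F p) := by
  funext p
  exact L.intervalIntegral_comp_comm ((cont_line w hc p).intervalIntegrable _ _)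

theorem iter_avw [CompleteSpace V] (w : Q m) {F : E m → V} (h : PerV F) (hc : ContDiff ℝ ∞ F)
    (n : ℕ) : iteratedFDeriv ℝ n (avw w F) = avw w (iteratedFDeriv ℝ n F) := by
  induction n with
  | zero =>
    rw [iteratedFDeriv_zero_eq_comp, iteratedFDeriv_zero_eq_comp]
    exact (avw_comp ((continuousMultilinearCurryFin0 ℝ (E m)
      V).symm.toContinuousLinearEquiv.toContinuousLinearMap) w hc.continuous).symm
  | succ n ih =>
    rw [iteratedFDeriv_succ_eq_comp_left, iteratedFDeriv_succ_eq_comp_left, ih]
    have hcn : ContDiff ℝ 1 (iteratedFDeriv ℝ n F) :=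
      (hc.iteratedFDeriv_right (m := 1) (i := n) (by norm_cast; exact le_top))
    have hd : fderiv ℝ (avw w (iteratedFDeriv ℝ n F)) = avw w (fderiv ℝ (iteratedFDeriv ℝ n F)) :=
      funext fun p => (avw_deriv w (perV_iter h n) hcn p).fderiv
    rw [hd]
    exact (avw_comp ((continuousMultilinearCurryLeftEquiv ℝ (fun _ : Fin (n + 1) => E m)
      V).symm.toContinuousLinearEquiv.toContinuousLinearMap) w
        (hcn.continuous_fderiv (by norm_num))).symm

/-- the iterated averages in the directions of the axes -/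
noncomputable def avl (l : List (Fin (m + 1))) (F : E m → V) : E m → V :=
  l.foldr (fun i G => avw (Pi.single i 1) G) F

theorem avl_nil (F : E m → V) : avl [] F = F := rfl

theorem avl_cons (i : Fin (m + 1)) (l : List (Fin (m + 1))) (F : E m → V) :
    avl (i :: l) F = avw (Pi.single i 1) (avl l F) := rfl

theorem avl_per {F : E m → V} (h : PerV F) (l : List (Fin (m + 1))) : PerV (avl l F) := by
  induction l with
  | nil => exact h
  | cons i l ih => exact avw_per _ ih

theorem avw_smooth [CompleteSpace V] (w : Q m) {F : E m → V} (h : PerV F) (hc : ContDiff ℝ ∞ F) :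
    ContDiff ℝ ∞ (avw w F) := by
  rw [contDiff_infty]
  intro n
  exact avw_contDiff _ n h (hc.of_le (by exact_mod_cast le_top))

theorem avl_smooth [CompleteSpace V] {F : E m → V} (h : PerV F) (hc : ContDiff ℝ ∞ F)
    (l : List (Fin (m + 1))) : ContDiff ℝ ∞ (avl l F) := by
  induction l with
  | nil => exact hc
  | cons i l ih => exact avw_smooth _ (avl_per h l) ih

theorem iter_avl [CompleteSpace V] {F : E m → V} (h : PerV F) (hc : ContDiff ℝ ∞ F) (n : ℕ)
    (l : List (Fin (m + 1))) : iteratedFDeriv ℝ n (avl l F) = avl l (iteratedFDeriv ℝ n F) := by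
  induction l with
  | nil => rfl
  | cons i l ih => rw [avl_cons, avl_cons, iter_avw _ (avl_per h l) (avl_smooth h hc l), ih]

/-- the iterated average is close to the function -/
theorem avl_close [CompleteSpace V] {F : E m → V} {δ : ℝ} (hc : Continuous F)
    (hF : ∀ (x y : Q m) (t : ℝ), ‖F (x, t) - F (y, t)‖ ≤ δ)
    (l : List (Fin (m + 1))) : Continuous (avl l F) ∧
      ∀ (x y : Q m) (t : ℝ), ‖avl l F (x, t) - F (y, t)‖ ≤ δ := by
  induction l with
  | nil => exact ⟨hc, hF⟩
  | cons i l ih =>
    refine ⟨avw_cont _ ih.1, fun x y t => ?_⟩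
    have h1 : avl (i :: l) F (x, t) - F (y, t) = ∫ s in (0 : ℝ)..1,
        (avl l F ((x, t) + s • ((Pi.single i 1, 0) : E m)) - F (y, t)) := by
      rw [intervalIntegral.integral_sub ((cont_line _ ih.1 _).intervalIntegrable _ _)
        intervalIntegrable_const, intervalIntegral.integral_const]
      simp [avl_cons, avw]
    rw [h1]
    have h3 : ∀ s ∈ uIoc (0 : ℝ) 1,
        ‖avl l F ((x, t) + s • ((Pi.single i 1, 0) : E m)) - F (y, t)‖ ≤ δ := by
      intro s _
      have h4 : ((x, t) + s • ((Pi.single i 1, 0) : E m)) =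
          (x + s • (Pi.single i 1 : Q m), t) := by
        refine Prod.ext ?_ ?_
        · rfl
        · simp
      rw [h4]
      exact ih.2 _ _ _
    refine (intervalIntegral.norm_integral_le_of_norm_le_const h3).trans ?_
    simp

/-- the average in the direction of an axis is invariant in this direction -/
theorem avw_axis {F : E m → V} (h : PerV F) (i : Fin (m + 1)) (p : E m) (r : ℝ) :
    avw (Pi.single i 1) F (p + r • ((Pi.single i 1, 0) : E m)) = avw (Pi.single i 1) F p := by
  classical
  have hp : Function.Periodic (fun s : ℝ => F (p + s • ((Pi.single i 1, 0) : E m))) 1 := by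
    intro s
    show F (p + (s + 1) • ((Pi.single i 1, 0) : E m)) = F (p + s • ((Pi.single i 1, 0) : E m))
    have h1 : p + (s + 1) • ((Pi.single i 1, 0) : E m) =
        p + s • ((Pi.single i 1, 0) : E m) + tr (Pi.single i 1) 0 := by
      rw [add_smul, one_smul, ← add_assoc]
      congr 1
      refine Prod.ext ?_ ?_
      · funext j
        simp only [tr, Pi.single_apply]
        split_ifs <;> simp
      · simp [tr]
    rw [h1]
    exact h.add _ _ _
  have h2 := hp.intervalIntegral_add_eq r 0
  rw [zero_add] at h2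
  show ∫ s in (0 : ℝ)..1, F (p + r • ((Pi.single i 1, 0) : E m) +
    s • ((Pi.single i 1, 0) : E m)) = _
  have h3 : (∫ s in (0 : ℝ)..1, F (p + r • ((Pi.single i 1, 0) : E m) +
      s • ((Pi.single i 1, 0) : E m))) =
      ∫ s in (0 : ℝ)..1, (fun s : ℝ => F (p + s • ((Pi.single i 1, 0) : E m))) (s + r) := by
    refine intervalIntegral.integral_congr fun s _ => ?_
    show F _ = F _
    rw [add_smul, add_assoc, add_comm (r • _)]
  rw [h3]
  refine (intervalIntegral.integral_comp_add_right
    (fun s : ℝ => F (p + s • ((Pi.single i 1, 0) : E m))) r).trans ?_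
  rw [zero_add, add_comm 1 r]
  exact h2

theorem avl_axis {F : E m → V} (h : PerV F) {l : List (Fin (m + 1))} {i : Fin (m + 1)}
    (hi : i ∈ l) (p : E m) (r : ℝ) :
    avl l F (p + r • ((Pi.single i 1, 0) : E m)) = avl l F p := by
  induction l generalizing p with
  | nil => exact absurd hi List.not_mem_nil
  | cons k l ih =>
    rw [avl_cons]
    by_cases hik : i = k
    · subst hik
      exact avw_axis (avl_per h l) i p r
    · have hil : i ∈ l := (List.mem_cons.1 hi).resolve_left hik
      refine intervalIntegral.integral_congr fun s _ => ?_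
      show avl l F (p + r • ((Pi.single i 1, 0) : E m) + s • ((Pi.single k 1, 0) : E m)) =
        avl l F (p + s • ((Pi.single k 1, 0) : E m))
      rw [add_right_comm]
      exact ih hil _

theorem avl_all {F : E m → V} (h : PerV F) (x : Q m) (t : ℝ) :
    avl (List.finRange (m + 1)) F (x, t) = avl (List.finRange (m + 1)) F (0, t) := by
  classical
  have h1 : ∀ s : Finset (Fin (m + 1)), avl (List.finRange (m + 1)) F
      ((0, t) + ∑ i ∈ s, x i • ((Pi.single i 1, 0) : E m)) =
      avl (List.finRange (m + 1)) F (0, t) := by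
    intro s
    induction s using Finset.induction_on with
    | empty => rw [Finset.sum_empty, add_zero]
    | insert i s hi ih =>
      rw [Finset.sum_insert hi, add_comm (x i • _), ← add_assoc,
        avl_axis h (List.mem_finRange i)]
      exact ih
  have h2 : ((x, t) : E m) = (0, t) + ∑ i, x i • ((Pi.single i 1, 0) : E m) := by
    refine Prod.ext ?_ ?_
    · rw [Prod.fst_add, Prod.fst_sum]
      funext j
      rw [Pi.add_apply, Finset.sum_apply]
      simp [Pi.single_apply]
    · rw [Prod.snd_add, Prod.snd_sum]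
      simp
  rw [h2]
  exact h1 Finset.univ

end Pool.Agent.Helper69.EK.AvgKL

namespace Pool.Agent.Helper69.EK

open Set Filter Topology Pool.Agent.Helper6K9.ES Pool.Agent.Helper6K9.ES.AvgL AvgKL
open Pool.Agent.Helper6K9.EH (Prof Fam eX eY dst pt Tr mkFam Pv Shf S_PROF S_FLOW)
open scoped ContDiff

/-- **Removal of the average, all orders.** -/
theorem avg : S_AVG := by
  intro κ m h ε hε hh
  obtain ⟨hc, hp⟩ := hh
  have hp : PerV h := hp
  have hcj : ∀ j : ℕ, ContDiff ℝ ∞ (iteratedFDeriv ℝ j h) := fun j =>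
    hc.iteratedFDeriv_right (m := ∞) (i := j) (by
      rw [← WithTop.coe_natCast, ← WithTop.coe_add]
      exact_mod_cast le_top)
  have hbd : ∀ j : ℕ, ∃ C : ℝ, 0 ≤ C ∧ ∀ p, ‖fderiv ℝ (iteratedFDeriv ℝ j h) p‖ ≤ C := fun j =>
    (perV_iter hp j).fderiv.bdd ((hcj j).continuous_fderiv (by norm_num))
  choose L hL0 hL using hbd
  set LL : ℝ := ∑ j ∈ Finset.range (κ + 1), L j with hLL
  have hLle : ∀ j, j ≤ κ → L j ≤ LL := fun j hj =>
    Finset.single_le_sum (f := L) (fun i _ => hL0 i) (Finset.mem_range.2 (by omega))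
  obtain ⟨M, hM⟩ := exists_nat_ge (max 2 (LL * 2 / ε))
  have hM2 : (2 : ℝ) ≤ M := (le_max_left _ _).trans hM
  have hM2' : 2 ≤ M := by exact_mod_cast hM2
  have hM0 : (0 : ℝ) < M := by linarith
  have hδε : LL * (2 / M) ≤ ε := by
    have h1 := (le_max_right _ _).trans hM
    rw [div_le_iff₀ hε] at h1
    rw [mul_div_assoc', div_le_iff₀ hM0]
    linarith
  set W := avw (om m M) h with hW
  have hWp : PerV W := avw_per _ hp
  have hWc : ContDiff ℝ ∞ W := avw_smooth _ hp hc
  set W' := avl (List.finRange (m + 1)) W with hW'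
  have hWp' : PerV W' := avl_per hWp _
  have hWc' : ContDiff ℝ ∞ W' := avl_smooth hWp hWc _
  have hW0 : ∀ p : E m, W' p = W' (0, p.2) := fun p => avl_all hWp p.1 p.2
  refine ⟨M, fun p => h p + (W' p - W p), ⟨hc.add (hWc'.sub hWc), ?_⟩, ?_, ?_⟩
  · intro p k l
    show h _ + (W' _ - W _) = h _ + (W' _ - W _)
    rw [hp p k l, hWp p k l, hWp' p k l]
  · have h1 : (fun p => h p + (W' p - W p) - h p) = W' - W := by
      funext p
      simp
    rw [h1]
    intro j hj p
    have hWj : iteratedFDeriv ℝ j W = avw (om m M) (iteratedFDeriv ℝ j h) :=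
      iter_avw _ hp hc j
    have hosc : ∀ (x y : Q m) (t : ℝ),
        ‖iteratedFDeriv ℝ j W (x, t) - iteratedFDeriv ℝ j W (y, t)‖ ≤ ε := by
      intro x y t
      rw [hWj]
      refine (osc hM2' (perV_iter hp j) ((hcj j).of_le (by exact_mod_cast le_top))
        (hL j) x y t).trans ?_
      refine le_trans ?_ hδε
      exact mul_le_mul_of_nonneg_right (hLle j hj) (by positivity)
    have hcont : Continuous (iteratedFDeriv ℝ j W) :=
      hWc.continuous_iteratedFDeriv (by exact_mod_cast le_top)
    have h2 := (avl_close hcont hosc (List.finRange (m + 1))).2 p.1 p.1 p.2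
    rw [← iter_avl hWp hWc] at h2
    have h3 : iteratedFDeriv ℝ j (W' - W) p = iteratedFDeriv ℝ j W' p - iteratedFDeriv ℝ j W p :=
      iteratedFDeriv_sub_apply ((hWc'.of_le (by exact_mod_cast le_top)).contDiffAt)
        ((hWc.of_le (by exact_mod_cast le_top)).contDiffAt)
    rw [h3]
    exact h2
  · have key : ∀ p : E m, (∫ s in (0 : ℝ)..1, (h (p.1 + s • om m M, p.2) +
        (W' (p.1 + s • om m M, p.2) - W (p.1 + s • om m M, p.2)))) = W' (0, p.2) := by
      intro p
      have h1 : ∀ s : ℝ, ((p.1 + s • om m M, p.2) : E m) = p + s • ((om m M, 0) : E m) := by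
        intro s
        refine Prod.ext ?_ ?_
        · rfl
        · simp
      have h2 : (∫ s in (0 : ℝ)..1, (h (p.1 + s • om m M, p.2) +
          (W' (p.1 + s • om m M, p.2) - W (p.1 + s • om m M, p.2)))) =
          ∫ s in (0 : ℝ)..1, (h (p + s • ((om m M, 0) : E m)) + (W' (0, p.2) - W p)) := by
        refine intervalIntegral.integral_congr fun s _ => ?_
        show h _ + (W' _ - W _) = h _ + (W' _ - W _)
        have h4 : (p + s • ((om m M, 0) : E m)).2 = p.2 := by simp
        rw [hW0 (p.1 + s • om m M, p.2), h1, hW, avw_line hp, h4]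
      rw [h2, intervalIntegral.integral_add ((cont_line _ hc.continuous _).intervalIntegrable _ _)
        intervalIntegrable_const, intervalIntegral.integral_const]
      have h3 : (∫ s in (0 : ℝ)..1, h (p + s • ((om m M, 0) : E m))) = W p := rfl
      rw [h3]
      simp
    intro p q hpq
    show (∫ s in (0 : ℝ)..1, (h (p.1 + s • om m M, p.2) +
        (W' (p.1 + s • om m M, p.2) - W (p.1 + s • om m M, p.2)))) =
      (∫ s in (0 : ℝ)..1, (h (q.1 + s • om m M, q.2) +
        (W' (q.1 + s • om m M, q.2) - W (q.1 + s • om m M, q.2))))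
    rw [key p, key q, hpq]

end Pool.Agent.Helper69.EK
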